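import Mathlib

/-!
# The positive integers with `+`, `x·2^y`, `≤`, `1` have no automatic presentation
-/

namespace Pool.Agent.Results.MP_34afd1_lc.NotAutomatic

open FirstOrder

/-- The convolution of a tuple of words over `A`: each word is padded on the right (by `none`) to the
maximal length of the words, and the result is read as one word over `(A ∪ {none})^k`. -/
def conv {A : Type} {k : ℕ} (w : Fin k → List A) : List (Fin k → Option A) :=
  (List.range (Finset.univ.sup fun j => (w j).length)).map fun i j => (w j)[i]?

/-- A relation on words is automatic if the set of convolutions of its tuples is a regular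
language. -/
def AutomaticRel {A : Type} {k : ℕ} (R : Set (Fin k → List A)) : Prop :=
  Language.IsRegular ({u | ∃ w ∈ R, u = conv w} : Language (Fin k → Option A))

/-- The structure `M` is automatic: there are a finite alphabet `A` and a bijection `ν` from `M` onto a
regular language, under which all relations and the graphs of all functions of `M` become
automatic relations. -/
def IsAutomatic (L : FirstOrder.Language.{0, 0}) (M : Type) [L.Structure M] : Prop :=
  ∃ (A : Type) (_ : Fintype A) (ν : M → List A),
    Function.Injective ν ∧ Language.IsRegular (Set.range ν : Language A) ∧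
    (∀ (n : ℕ) (R : L.Relations n),
      AutomaticRel {w : Fin n → List A | ∃ x : Fin n → M,
        Language.Structure.RelMap R x ∧ w = fun i => ν (x i)}) ∧
    (∀ (n : ℕ) (f : L.Functions n),
      AutomaticRel {w : Fin (n + 1) → List A | ∃ x : Fin n → M,
        w = Fin.snoc (fun i => ν (x i)) (ν (Language.Structure.funMap f x))})

/-- the function symbols: `+`, `x·2^y`, `1` -/
inductive NFun : ℕ → Type
  | add : NFun 2
  | mulPow : NFun 2
  | one : NFun 0

/-- the relation symbol `≤` -/
inductive NRel : ℕ → Type
  | le : NRel 2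

/-- the language `{+, x·2^y, ≤, 1}` -/
def LN : FirstOrder.Language.{0, 0} := ⟨NFun, NRel⟩

/-- the structure on the positive integers -/
instance : LN.Structure ℕ+ where
  funMap := fun {_} f x =>
    match f, x with
    | NFun.add, x => x 0 + x 1
    | NFun.mulPow, x => x 0 * 2 ^ ((x 1 : ℕ+) : ℕ)
    | NFun.one, _ => 1
  RelMap := fun {_} r x =>
    match r, x with
    | NRel.le, x => x 0 ≤ x 1

section Conv

variable {A : Type} {k : ℕ}

/-- recover the `j`-th word -/
def proj (j : Fin k) (W : List (Fin k → Option A)) : List A := W.filterMap fun l => l j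

theorem filterMap_getElem (w : List A) : ∀ n, w.length ≤ n →
    (List.range n).filterMap (fun i => w[i]?) = w := by
  induction w with
  | nil =>
    intro n _
    rw [List.filterMap_eq_nil_iff]
    intro i _
    rfl
  | cons a w ih =>
    intro n hn
    obtain ⟨m, rfl⟩ : ∃ m, n = m + 1 := ⟨n - 1, by simp at hn; omega⟩
    rw [List.range_succ_eq_map, List.filterMap_cons]
    simp only [List.getElem?_cons_zero]
    rw [List.filterMap_map]
    have h := ih m (by simpa using hn)
    congr 1

theorem proj_conv (w : Fin k → List A) (j : Fin k) : proj j (conv w) = w j := by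
  unfold proj conv
  rw [List.filterMap_map]
  exact filterMap_getElem (w j) _ (Finset.le_sup (f := fun j => (w j).length) (Finset.mem_univ j))

theorem length_conv (w : Fin k → List A) :
    (conv w).length = Finset.univ.sup fun j => (w j).length := by
  unfold conv
  simp

theorem conv_injective {w w' : Fin k → List A} (h : conv w = conv w') : w = w' := by
  funext j
  rw [← proj_conv w j, h, proj_conv]

theorem getElem_conv_none (w : Fin k → List A) (j : Fin k) (m : ℕ) (hm : (w j).length ≤ m)
    (l : Fin k → Option A) (hl : l ∈ (conv w).drop m) : l j = none := by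
  obtain ⟨i, hi, rfl⟩ := List.mem_iff_getElem.mp hl
  rw [List.getElem_drop]
  unfold conv
  rw [List.getElem_map]
  simp only [List.getElem_range]
  rw [List.getElem?_eq_none_iff]
  omega

end Conv

/-- the growth bound for an automatic binary function -/
theorem growth {A M : Type} (ν : M → List A) (hν : Function.Injective ν)
    (g : M → M → M)
    (hg : AutomaticRel {w : Fin 3 → List A | ∃ x y : M, w = ![ν x, ν y, ν (g x y)]}) :
    ∃ c : ℕ, ∀ x y, (ν (g x y)).length ≤ max (ν x).length (ν y).length + c := by
  obtain ⟨σ, hσ, D, hD⟩ := hg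
  refine ⟨Fintype.card σ, fun x y => ?_⟩
  by_contra hcon
  push Not at hcon
  set m := max (ν x).length (ν y).length with hm
  set w : Fin 3 → List A := ![ν x, ν y, ν (g x y)] with hw
  have hacc : conv w ∈ D.accepts := by
    rw [hD]
    exact ⟨w, ⟨x, y, rfl⟩, rfl⟩
  rw [DFA.mem_accepts] at hacc
  have hlen : (conv w).length ≥ m + Fintype.card σ := by
    rw [length_conv]
    refine le_trans hcon.le ?_
    exact Finset.le_sup (f := fun j => (w j).length) (Finset.mem_univ 2)
  have hsplit : conv w = (conv w).take m ++ (conv w).drop m := (List.take_append_drop _ _).symm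
  have hdlen : Fintype.card σ ≤ ((conv w).drop m).length := by
    rw [List.length_drop]
    omega
  obtain ⟨q, a, b, c, habc, -, hb, ha1, hb1, hc1⟩ :=
    D.evalFrom_split (s := D.evalFrom D.start ((conv w).take m)) hdlen rfl
  -- the shortened word is accepted
  have hacc' : (conv w).take m ++ (a ++ c) ∈ D.accepts := by
    rw [DFA.mem_accepts]
    change D.evalFrom D.start _ ∈ D.accept
    rw [DFA.evalFrom_of_append, DFA.evalFrom_of_append, ha1, hc1, ← DFA.evalFrom_of_append,
      List.take_append_drop]
    exact hacc
  rw [hD] at hacc'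
  obtain ⟨w', ⟨x', y', hw'⟩, hconv⟩ := hacc'
  -- letters of `b` have no entry in the first two coordinates
  have hnone : ∀ j : Fin 3, (w j).length ≤ m → proj j b = [] := by
    intro j hj
    unfold proj
    rw [List.filterMap_eq_nil_iff]
    intro l hl
    refine getElem_conv_none w j m hj l ?_
    rw [habc]
    simp [hl]
  have hproj : ∀ j : Fin 3, (w j).length ≤ m → w' j = w j := by
    intro j hj
    have h1 := hnone j hj
    rw [← proj_conv w' j, ← hconv, ← proj_conv w j]
    conv_rhs => rw [hsplit, habc]
    unfold proj at h1 ⊢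
    simp only [List.filterMap_append, h1, List.append_nil]
  have hx : x' = x := by
    apply hν
    have := hproj 0 (le_max_left _ _)
    rw [hw'] at this
    exact this
  have hy : y' = y := by
    apply hν
    have := hproj 1 (le_max_right _ _)
    rw [hw'] at this
    exact this
  have hww : w' = w := by rw [hw', hw, hx, hy]
  rw [hww] at hconv
  have hl := congrArg List.length hconv
  rw [hsplit] at hl
  rw [List.length_append, List.length_append] at hl
  have h2 := congrArg List.length habc
  rw [List.length_append, List.length_append] at h2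
  have h3 : 0 < b.length := List.length_pos_iff.mpr hb
  rw [List.length_append] at hl
  simp only [List.take_append_drop] at hl
  omega

/-- the injective function used -/
def F (x y : ℕ+) : ℕ+ := (x + x + 1) * 2 ^ (y : ℕ)

theorem F_injective {x y x' y' : ℕ+} (h : F x y = F x' y') : x = x' ∧ y = y' := by
  unfold F at h
  have h1 : (2 * (x : ℕ) + 1) * 2 ^ (y : ℕ) = (2 * (x' : ℕ) + 1) * 2 ^ (y' : ℕ) := by
    have := congrArg PNat.val h
    simp only [PNat.val_ofNat, PNat.mul_coe, PNat.add_coe, PNat.pow_coe] at this
    rw [two_mul, two_mul]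
    exact this
  have hodd : ∀ n : ℕ, ¬ 2 ∣ 2 * n + 1 := fun n hn => by omega
  have key : ∀ (a b c d : ℕ), b ≤ d → (2 * a + 1) * 2 ^ b = (2 * c + 1) * 2 ^ d → b = d := by
    intro a b c d hbd he
    obtain ⟨e, rfl⟩ := Nat.exists_eq_add_of_le hbd
    rcases Nat.eq_zero_or_pos e with rfl | he0
    · rfl
    · exfalso
      rw [pow_add, ← mul_assoc, mul_right_comm] at he
      have h2 := Nat.eq_of_mul_eq_mul_right (by positivity) he
      apply hodd a
      rw [h2]
      exact Dvd.dvd.mul_left (dvd_pow_self 2 (by omega)) _
  have hy : (y : ℕ) = y' := by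
    rcases le_total (y : ℕ) y' with h2 | h2
    · exact key _ _ _ _ h2 h1
    · exact (key _ _ _ _ h2 h1.symm).symm
  rw [hy] at h1
  have h2 := Nat.eq_of_mul_eq_mul_right (by positivity) h1
  exact ⟨PNat.eq (by omega), PNat.eq hy⟩

/-- the growing sets -/
def SS : ℕ → Finset ℕ+
  | 0 => {1, 2}
  | n + 1 => (SS n ×ˢ SS n).image fun p => F p.1 p.2

theorem card_SS (n : ℕ) : (SS n).card = 2 ^ 2 ^ n := by
  induction n with
  | zero => rfl
  | succ n ih =>
    rw [SS, Finset.card_image_of_injective, Finset.card_product, ih, ← pow_add, pow_succ, mul_two]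
    rintro ⟨a, b⟩ ⟨c, d⟩ h
    have := F_injective h
    exact Prod.ext this.1 this.2

theorem length_SS {A : Type} (ν : ℕ+ → List A) (c : ℕ)
    (hc : ∀ x y, (ν (F x y)).length ≤ max (ν x).length (ν y).length + c) (n : ℕ) :
    ∀ x ∈ SS n, (ν x).length ≤ max (ν 1).length (ν 2).length + c * n := by
  induction n with
  | zero =>
    intro x hx
    simp only [SS, Finset.mem_insert, Finset.mem_singleton] at hx
    rcases hx with rfl | rfl
    · simp
    · simp
  | succ n ih =>
    intro x hx
    simp only [SS, Finset.mem_image, Finset.mem_product, Prod.exists] at hx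
    obtain ⟨a, b, ⟨ha, hb⟩, rfl⟩ := hx
    refine (hc a b).trans ?_
    have h1 := ih a ha
    have h2 := ih b hb
    have h3 : max (ν a).length (ν b).length ≤ max (ν 1).length (ν 2).length + c * n :=
      max_le h1 h2
    rw [Nat.mul_succ]
    omega

theorem card_words {A : Type} [Fintype A] (B : ℕ) (ν : ℕ+ → List A) (hν : Function.Injective ν)
    (S : Finset ℕ+) (hS : ∀ x ∈ S, (ν x).length ≤ B) :
    S.card ≤ (Fintype.card A + 1) ^ B := by
  classical
  have h : S.card ≤ (Finset.univ : Finset (Fin B → Option A)).card := by
    refine Finset.card_le_card_of_injOn (fun x => fun i => (ν x)[(i : ℕ)]?) (by simp) ?_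
    intro x hx y hy hxy
    apply hν
    apply List.ext_getElem?
    intro i
    by_cases hi : i < B
    · exact congrFun hxy ⟨i, hi⟩
    · rw [List.getElem?_eq_none_iff.mpr, List.getElem?_eq_none_iff.mpr]
      · exact (hS y hy).trans (by omega)
      · exact (hS x hx).trans (by omega)
  refine h.trans ?_
  rw [Finset.card_univ, Fintype.card_fun, Fintype.card_option, Fintype.card_fin]

theorem no_bound (k l c : ℕ) : ∃ n, (k + 1) ^ (l + c * n) < 2 ^ 2 ^ n := by
  have h1 : ∀ B, (k + 1) ^ B ≤ 2 ^ (k * B) := by
    intro B
    rw [pow_mul]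
    exact Nat.pow_le_pow_left (Nat.lt_two_pow_self) B
  let m := k * l + 2 * (k * c) + 1
  refine ⟨2 * m, (h1 _).trans_lt ?_⟩
  apply Nat.pow_lt_pow_right (by norm_num)
  have h2 : m < 2 ^ m := Nat.lt_two_pow_self
  have h3 : 2 ^ (2 * m) = 2 ^ m * 2 ^ m := by rw [two_mul, pow_add]
  rw [h3]
  have h4 : (m + 1) * (m + 1) ≤ 2 ^ m * 2 ^ m := Nat.mul_le_mul h2 h2
  refine lt_of_lt_of_le ?_ h4
  have h5 : k * (l + c * (2 * m)) = k * l + 2 * (k * c) * m := by ring
  rw [h5]
  have h6 : k * l + 2 * (k * c) ≤ m := by omega
  have h7 : k * l ≤ m := by omega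
  have h8 : 2 * (k * c) ≤ m := by omega
  have h9 : 2 * (k * c) * m ≤ m * m := Nat.mul_le_mul_right m h8
  have h10 : (m + 1) * (m + 1) = m * m + 2 * m + 1 := by ring
  omega

/-- The structure of the positive integers with `+`, `x·2^y`, `≤` and `1` is not automatic. -/
theorem result : ¬ IsAutomatic LN ℕ+ := by
  rintro ⟨A, hA, ν, hν, -, -, hfun⟩
  have hbin : ∀ (f : LN.Functions 2), ∃ c : ℕ, ∀ x y : ℕ+,
      (ν (Language.Structure.funMap f ![x, y])).length ≤ max (ν x).length (ν y).length + c := by
    intro f
    apply growth ν hν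
    have h := hfun 2 f
    convert h using 1
    ext w
    constructor
    · rintro ⟨x, y, rfl⟩
      refine ⟨![x, y], ?_⟩
      funext i
      fin_cases i <;> rfl
    · rintro ⟨x, rfl⟩
      refine ⟨x 0, x 1, ?_⟩
      have hx : ![x 0, x 1] = x := by
        funext i
        fin_cases i <;> rfl
      rw [hx]
      funext i
      fin_cases i <;> rfl
  obtain ⟨c1, h1⟩ := hbin NFun.add
  obtain ⟨c2, h2⟩ := hbin NFun.mulPow
  have hadd : ∀ x y : ℕ+, (ν (x + y)).length ≤ max (ν x).length (ν y).length + c1 := h1
  have hmul : ∀ x y : ℕ+, (ν (x * 2 ^ (y : ℕ))).length ≤ max (ν x).length (ν y).length + c2 := h2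
  have hF : ∀ x y, (ν (F x y)).length ≤
      max (ν x).length (ν y).length + ((ν 1).length + 2 * c1 + c2) := by
    intro x y
    unfold F
    have e1 := hmul (x + x + 1) y
    have e2 := hadd (x + x) 1
    have e3 := hadd x x
    omega
  set c := (ν 1).length + 2 * c1 + c2
  obtain ⟨n, hn⟩ := no_bound (Fintype.card A) (max (ν 1).length (ν 2).length) c
  have h3 := card_words (max (ν 1).length (ν 2).length + c * n) ν hν (SS n)
    (length_SS ν c hF n)
  rw [card_SS] at h3
  omega

end Pool.Agent.Results.MP_34afd1_lc.NotAutomatic
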